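import Pool.Agent.Run7.h104.Q2.Defs

/-!
# MP_5bfbcb_an, Q2 (project of helper104): the piece FIN
-/

set_option autoImplicit false

namespace Pool.Agent.Run7.h957.Q2

open MeasureTheory AddCircle Complex Set Filter Topology Pool.Agent.W767.HL
open Pool.Agent.Run7.h104.Q2

noncomputable section

lemma P_zero (θ : Ci) : P 0 θ = 1 := by
  unfold P
  rw [norm_zero, sub_zero, norm_ze]
  norm_num

/-- a nonzero function has a nonzero Fourier coefficient -/
lemma exists_coeff_ne {g : Lp ℂ 2 mu} (hg : g ≠ 0) : ∃ n : ℤ, fourierCoeff g n ≠ 0 := by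
  by_contra h
  push Not at h
  apply hg
  have h1 := hasSum_fourier_series_L2 g
  have h2 : (fun i : ℤ => fourierCoeff g i • (fourierLp 2 i : Lp ℂ 2 mu)) = fun _ => 0 := by
    funext i
    rw [h i, zero_smul]
  rw [h2] at h1
  exact h1.unique hasSum_zero

theorem prove_FIN : S_FIN := by
  intro g hg ⟨M, hM⟩
  obtain ⟨n1, hn1⟩ := exists_coeff_ne hg
  -- the smallest frequency
  obtain ⟨n0, hn0, hmin⟩ : ∃ n0 : ℤ, fourierCoeff g n0 ≠ 0 ∧ ∀ n < n0, fourierCoeff g n = 0 := by
    have hbd : ∃ b : ℤ, ∀ z : ℤ, fourierCoeff g z ≠ 0 → b ≤ z := by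
      refine ⟨M, fun z hz => ?_⟩
      by_contra h
      exact hz (hM z (by omega))
    obtain ⟨lb, h1, h2⟩ := Int.exists_least_of_bdd hbd ⟨n1, hn1⟩
    refine ⟨lb, h1, fun n hn => ?_⟩
    by_contra h
    have := h2 n h
    omega
  set c := fourierCoeff g with hc
  have hgi : Integrable (g : Ci → ℂ) mu := (Lp.memLp g).integrable (by norm_num)
  have hw : ‖(0:ℂ)‖ < 1 := by simp
  -- Jensen's inequality in the limit
  have key : ∀ a : ℝ, 0 < a → 2 * Real.log ‖c n0‖ ≤ La 0 a g := by
    intro a ha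
    have h1 : Tendsto (fun N : ℕ => La 0 a (fun θ => ev (tr c (-(N : ℤ)) N) (ze θ))) atTop
        (𝓝 (La 0 a g)) :=
      La_tendsto hw ha hgi (fun N => ev_tr_integrable _ _ _) (trunc_tendsto g)
    refine ge_of_tendsto h1 ?_
    filter_upwards [eventually_ge_atTop n0.natAbs] with N hN
    set F : ℤ →₀ ℂ := sh (-n0) (tr c (-(N : ℤ)) N) with hF
    have hF0 : ∀ n : ℤ, n < 0 → F n = 0 := by
      intro n hn
      rw [hF, sh_apply, tr_apply]
      split_ifs with h
      · exact hmin _ (by omega)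
      · rfl
    have hFz : F 0 = c n0 := by
      rw [hF, sh_apply, tr_apply, if_pos]
      · congr 1; ring
      · constructor <;> omega
    have hev0 : ev F 0 = c n0 := by
      rw [← hFz, ev_eq_sum]
      unfold Finsupp.sum
      rw [Finset.sum_eq_single 0]
      · simp
      · intro b hb hb0
        show F b * (0:ℂ) ^ b = 0
        rw [zero_zpow b hb0, mul_zero]
      · intro h0
        rw [Finsupp.notMem_support_iff.1 h0]
        simp
    have hd := differentiable_ev hF0
    have hev : ∀ θ, ‖ev F (ze θ)‖ = ‖ev (tr c (-(N : ℤ)) N) (ze θ)‖ := by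
      intro θ
      rw [hF, ev_sh _ _ (ze_ne θ), norm_mul, norm_zpow, norm_ze, one_zpow, one_mul]
    have hj := jensen (f := ev F) (v := fun θ => a + ‖ev F (ze θ)‖ ^ 2) hd
      (by
        have := (hd.continuous.comp continuous_ze).norm.pow 2
        exact continuous_const.add this)
      (fun θ => by positivity) (fun θ => by linarith) hw
    rw [hev0] at hj
    have hpos : 0 < ‖c n0‖ := norm_pos_iff.2 hn0
    have h2 := Real.log_le_log (by positivity) hj
    rw [Real.log_exp, Real.log_pow] at h2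
    push_cast at h2
    refine h2.trans (le_of_eq ?_)
    unfold La
    refine integral_congr_ae (Eventually.of_forall fun θ => ?_)
    simp only
    rw [hev θ]
  set A : ℝ := 2 * (∫ θ, ‖g θ‖ ∂mu) - 2 * Real.log ‖c n0‖ with hA
  refine ⟨max 1 A, fun σ hσ => ?_⟩
  have hσ1 : 1 ≤ σ := (le_max_left _ _).trans hσ
  have hE : MeasurableSet {θ : Ci | ‖g θ‖ ≤ Real.exp (-σ)} :=
    measurableSet_le (Lp.stronglyMeasurable g).measurable.norm measurable_const
  have hexp : Real.exp (-(2 * σ)) ≤ 1 := by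
    rw [Real.exp_le_one_iff]; linarith
  have h1 := key (Real.exp (-(2 * σ))) (Real.exp_pos _)
  have h2 := La_le hw (Real.exp_pos (-(2 * σ))) hexp hgi hE (σ := Real.exp (-σ)) (fun θ hθ => hθ)
  simp only [P_zero] at h2
  have h3 : (∫ θ in {θ : Ci | ‖g θ‖ ≤ Real.exp (-σ)}, (1:ℝ) ∂mu) =
      mu.real {θ : Ci | ‖g θ‖ ≤ Real.exp (-σ)} := by
    rw [setIntegral_const, smul_eq_mul, mul_one]
  rw [h3] at h2
  have h4 : Real.log (Real.exp (-(2 * σ)) + Real.exp (-σ) ^ 2) = Real.log 2 - 2 * σ := by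
    have : Real.exp (-(2 * σ)) + Real.exp (-σ) ^ 2 = 2 * Real.exp (-(2 * σ)) := by
      rw [← Real.exp_nat_mul]
      push_cast
      rw [show (2:ℝ) * -σ = -(2 * σ) by ring]
      ring
    rw [this, Real.log_mul (by norm_num) (Real.exp_pos _).ne', Real.log_exp]
    ring
  rw [h4] at h2
  simp only [one_mul] at h2
  set μE := mu.real {θ : Ci | ‖g θ‖ ≤ Real.exp (-σ)} with hμE
  have hμ0 : 0 ≤ μE := measureReal_nonneg
  have hl2 : Real.log 2 < 1 := by
    have := Real.log_two_lt_d9
    linarith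
  have h5 : μE * σ ≤ A := by
    have h6 : μE * σ ≤ μE * (2 * σ - Real.log 2) := by
      apply mul_le_mul_of_nonneg_left _ hμ0
      linarith
    have h7 : μE * (Real.log 2 - 2 * σ) = -(μE * (2 * σ - Real.log 2)) := by ring
    rw [h7] at h2
    linarith
  rw [Real.rpow_neg_one, ← div_eq_mul_inv, le_div_iff₀ (by linarith)]
  exact h5.trans (le_max_right _ _)

end

end Pool.Agent.Run7.h957.Q2
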