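import Pool.Agent.Run7.h104.Q2.Defs

/-!
# MP_5bfbcb_an, Q2 (project of helper104): the piece LIM
-/

set_option autoImplicit false

namespace Pool.Agent.Run7.h957.Q2

open MeasureTheory AddCircle Complex Set Filter Topology Pool.Agent.W767.HL
open Pool.Agent.Run7.h104.Q2

noncomputable section

/-- the truncations have at most the norm of the function -/
lemma norm_trunc_le (g : Lp ℂ 2 mu) (a b : ℤ) :
    ∫ θ, ‖ev (tr (fourierCoeff g) a b) (ze θ)‖ ^ 2 ∂mu ≤ ‖g‖ ^ 2 := by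
  set F : Lp ℂ 2 mu := ∑ i ∈ Finset.Icc a b, fourierCoeff g i • fourierLp 2 i with hF
  have hcoe : (F : Ci → ℂ) =ᵐ[mu] fun θ => ev (tr (fourierCoeff g) a b) (ze θ) := by
    have h3 : F = ContinuousMap.toLp (E := ℂ) 2 mu ℂ
        (∑ i ∈ Finset.Icc a b, fourierCoeff g i • fourier i) := by
      rw [hF, map_sum]
      refine Finset.sum_congr rfl fun i _ => ?_
      rw [map_smul]
    rw [h3]
    refine (ContinuousMap.coeFn_toLp mu _).trans (Filter.Eventually.of_forall fun θ => ?_)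
    simp only [ContinuousMap.coe_sum, Finset.sum_apply, ContinuousMap.smul_apply, smul_eq_mul,
      fourier_eq, ev_tr]
  have h1 : ∫ θ, ‖ev (tr (fourierCoeff g) a b) (ze θ)‖ ^ 2 ∂mu = ∫ θ, ‖F θ‖ ^ 2 ∂mu := by
    refine integral_congr_ae ?_
    filter_upwards [hcoe] with θ h
    rw [h]
  have h2 : ((∫ θ, ‖F θ‖ ^ 2 ∂mu : ℝ) : ℂ) = inner ℂ F F := by
    rw [L2.inner_def, ← integral_complex_ofReal]
    refine integral_congr_ae (Eventually.of_forall fun θ => ?_)
    simp only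
    rw [inner_self_eq_norm_sq_to_K]
    push_cast
    rfl
  have h3 : inner ℂ F F = ((∑ i ∈ Finset.Icc a b, ‖fourierCoeff g i‖ ^ 2 : ℝ) : ℂ) := by
    rw [hF, (orthonormal_fourier (T := 1)).inner_sum]
    push_cast
    refine Finset.sum_congr rfl fun i _ => ?_
    rw [Complex.conj_mul']
  have h4 : ∑ i ∈ Finset.Icc a b, ‖fourierCoeff g i‖ ^ 2 ≤ ‖g‖ ^ 2 := by
    have h5 := (orthonormal_fourier (T := 1)).sum_inner_products_le g (s := Finset.Icc a b)
    refine le_trans (le_of_eq (Finset.sum_congr rfl fun i _ => ?_)) h5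
    rw [← inner_fourier, innerSL_apply_apply]
  rw [h3] at h2
  rw [h1]
  have h6 : ∫ θ, ‖F θ‖ ^ 2 ∂mu = ∑ i ∈ Finset.Icc a b, ‖fourierCoeff g i‖ ^ 2 := by
    exact_mod_cast h2
  rw [h6]
  exact h4

theorem prove_LIM (hU : S_UNIF) : S_LIM := by
  intro L η m hL hη hη1 hm hm0 hgap hsep g hG2 hinf
  obtain ⟨p, C, Cm, hp, hC, H⟩ := hU L η hL hη hη1
  set c := fourierCoeff g with hc
  have hgi : Integrable (g : Ci → ℂ) mu := (Lp.memLp g).integrable (by norm_num)
  -- a nonzero coefficient far to the left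
  obtain ⟨n, hn, hcn⟩ := hinf (-((Cm : ℤ) + 1))
  obtain ⟨k, hk⟩ : ∃ k : ℕ, n = -(k : ℤ) := ⟨n.natAbs, by omega⟩
  have hkC : Cm < k := by omega
  have hex : ∃ j, k ≤ m j := ⟨k, hm.le_apply⟩
  set j2 := Nat.find hex with hj2
  have hkm : k ≤ m j2 := Nat.find_spec hex
  have hj21 : 1 ≤ j2 := by
    by_contra h
    have : j2 = 0 := by omega
    rw [this, hm0] at hkm
    omega
  have hkm' : m (j2 - 1) < k := by
    have := Nat.find_min hex (show j2 - 1 < Nat.find hex by omega)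
    omega
  have hkeq : k = m j2 := by
    by_contra h
    exact hcn (by
      rw [hk]
      exact hG2 j2 hj21 _ (by omega) (by omega))
  have hcj : c (-(m j2 : ℤ)) ≠ 0 := by rw [← hkeq, ← hk]; exact hcn
  have hgne : g ≠ 0 := by
    rintro rfl
    apply hcj
    rw [hc, ← inner_fourier, map_zero]
  set A : ℝ := ‖g‖ with hA
  have hA0 : 0 < A := norm_pos_iff.2 hgne
  set δ : ℝ := ‖c (-(m j2 : ℤ))‖ / A with hδ
  have hδ0 : 0 < δ := div_pos (norm_pos_iff.2 hcj) hA0
  -- the normalised truncations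
  set G : ℕ → (ℤ →₀ ℂ) := fun J => ((A⁻¹ : ℝ) : ℂ) • tr c (-(m J : ℤ)) (m J) with hG
  have hGev : ∀ J θ, ‖ev (G J) (ze θ)‖ = A⁻¹ * ‖ev (tr c (-(m J : ℤ)) (m J)) (ze θ)‖ := by
    intro J θ
    simp only [hG]
    rw [ev_smul, norm_mul, Complex.norm_real, Real.norm_of_nonneg (by positivity)]
  have hHLG : ∀ J, HLG L η m J (G J) := by
    intro J
    refine ⟨hL, hη, hη1, hm, hm0, hgap, hsep, ?_, ?_, ?_⟩
    · intro i hi
      simp only [hG, Finsupp.smul_apply, tr_apply]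
      rw [if_neg (by omega), smul_zero]
    · intro j hj i hi1 hi2
      simp only [hG, Finsupp.smul_apply, tr_apply]
      split_ifs
      · rw [hG2 j hj i hi1 hi2, smul_zero]
      · rw [smul_zero]
    · have e1 : (fun θ => ‖ev (G J) (ze θ)‖ ^ 2) =
          fun θ => (A⁻¹) ^ 2 * ‖ev (tr c (-(m J : ℤ)) (m J)) (ze θ)‖ ^ 2 := by
        funext θ
        rw [hGev, mul_pow]
      rw [e1, integral_const_mul]
      have h1 := norm_trunc_le g (-(m J : ℤ)) (m J)
      calc A⁻¹ ^ 2 * ∫ θ, ‖ev (tr c (-(m J : ℤ)) (m J)) (ze θ)‖ ^ 2 ∂mu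
          ≤ A⁻¹ ^ 2 * A ^ 2 := mul_le_mul_of_nonneg_left h1 (by positivity)
        _ = 1 := by field_simp
  have hGj : ∀ J, j2 ≤ J → ‖G J (-(m j2 : ℤ))‖ = δ := by
    intro J hJ
    have hmJ : m j2 ≤ m J := hm.monotone hJ
    simp only [hG, Finsupp.smul_apply, tr_apply]
    rw [if_pos (by constructor <;> omega), norm_smul, Complex.norm_real,
      Real.norm_of_nonneg (by positivity), hδ]
    field_simp
  -- the bound for the limit
  have key : ∀ σ : ℝ, C ≤ σ → (Real.log δ) ^ 2 ≤ σ →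
      mu.real {θ : Ci | ‖g θ‖ ≤ A * Real.exp (-σ - 1)} ≤ C * σ ^ (-p) := by
    intro σ hσC hσδ
    have hexp : Real.exp (-Real.sqrt σ) ≤ δ := by
      rw [← Real.exp_log hδ0]
      refine Real.exp_le_exp.2 ?_
      have h1 : |Real.log δ| ≤ Real.sqrt σ := Real.abs_le_sqrt hσδ
      have h2 := neg_abs_le (Real.log δ)
      linarith
    set ε : ℝ := A * (Real.exp (-σ) - Real.exp (-σ - 1)) with hε
    have hε0 : 0 < ε := by
      apply mul_pos hA0
      have := Real.exp_lt_exp.2 (show -σ - 1 < -σ by linarith)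
      linarith
    set I : ℕ → ℝ := fun J => ∫ θ, ‖ev (tr c (-(m J : ℤ)) (m J)) (ze θ) - g θ‖ ∂mu with hI
    have hIlim : Tendsto I atTop (𝓝 0) := (trunc_tendsto g).comp hm.tendsto_atTop
    have hlim : Tendsto (fun J => C * σ ^ (-p) + I J / ε) atTop (𝓝 (C * σ ^ (-p))) := by
      have := (hIlim.div_const ε).const_add (C * σ ^ (-p))
      simpa using this
    refine ge_of_tendsto hlim ?_
    filter_upwards [eventually_ge_atTop j2] with J hJ
    have h1 := H m J (G J) (hHLG J) j2 hj21 hJ (by omega) σ hσC (by rw [hGj J hJ]; exact hexp)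
    have hsub : {θ : Ci | ‖g θ‖ ≤ A * Real.exp (-σ - 1)} ⊆
        {θ : Ci | ‖ev (G J) (ze θ)‖ ≤ Real.exp (-σ)} ∪
        {θ : Ci | ε ≤ ‖ev (tr c (-(m J : ℤ)) (m J)) (ze θ) - g θ‖} := by
      intro θ hθ
      replace hθ : ‖g θ‖ ≤ A * Real.exp (-σ - 1) := hθ
      by_cases h : ‖ev (G J) (ze θ)‖ ≤ Real.exp (-σ)
      · exact Or.inl h
      · right
        rw [hGev, not_le, inv_mul_eq_div, lt_div_iff₀ hA0] at h
        have h2 := norm_sub_norm_le (ev (tr c (-(m J : ℤ)) (m J)) (ze θ)) (g θ)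
        show ε ≤ _
        rw [hε]
        nlinarith
    have h2 : mu.real {θ : Ci | ε ≤ ‖ev (tr c (-(m J : ℤ)) (m J)) (ze θ) - g θ‖} ≤ I J / ε := by
      rw [le_div_iff₀ hε0, mul_comm]
      exact mul_meas_ge_le_integral_of_nonneg (Eventually.of_forall fun θ : Ci =>
        norm_nonneg (ev (tr c (-(m J : ℤ)) (m J)) (ze θ) - g θ))
        ((ev_tr_integrable c _ _).sub hgi).norm ε
    refine (measureReal_mono hsub).trans ((measureReal_union_le _ _).trans ?_)
    exact add_le_add h1 h2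
  -- conclusion
  refine ⟨p, max (max (C * 2 ^ p) (2 * C)) (max (2 * (Real.log δ) ^ 2)
    (2 * (1 - Real.log A))), hp, fun σ hσ => ?_⟩
  have hσ1 : C * 2 ^ p ≤ σ := (le_max_left _ _).trans ((le_max_left _ _).trans hσ)
  have hσ2 : 2 * C ≤ σ := (le_max_right _ _).trans ((le_max_left _ _).trans hσ)
  have hσ3 : 2 * (Real.log δ) ^ 2 ≤ σ := (le_max_left _ _).trans ((le_max_right _ _).trans hσ)
  have hσ4 : 2 * (1 - Real.log A) ≤ σ := (le_max_right _ _).trans ((le_max_right _ _).trans hσ)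
  have hσ0 : 0 < σ := by linarith
  have h1 := key (σ / 2) (by linarith) (by linarith)
  have hsub : {θ : Ci | ‖g θ‖ ≤ Real.exp (-σ)} ⊆
      {θ : Ci | ‖g θ‖ ≤ A * Real.exp (-(σ / 2) - 1)} := by
    intro θ hθ
    replace hθ : ‖g θ‖ ≤ Real.exp (-σ) := hθ
    show ‖g θ‖ ≤ A * Real.exp (-(σ / 2) - 1)
    refine hθ.trans ?_
    calc Real.exp (-σ) ≤ Real.exp (Real.log A + (-(σ / 2) - 1)) :=
          Real.exp_le_exp.2 (by linarith)
      _ = A * Real.exp (-(σ / 2) - 1) := by rw [Real.exp_add, Real.exp_log hA0]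
  refine (measureReal_mono hsub).trans (h1.trans ?_)
  have h2 : C * (σ / 2) ^ (-p) = C * 2 ^ p * σ ^ (-p) := by
    rw [Real.div_rpow hσ0.le (by norm_num), Real.rpow_neg (by norm_num : (0:ℝ) ≤ 2)]
    field_simp
  rw [h2]
  exact mul_le_mul_of_nonneg_right ((le_max_left _ _).trans (le_max_left _ _))
    (Real.rpow_nonneg hσ0.le _)

end

end Pool.Agent.Run7.h957.Q2
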