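import Pool.Agent.Run7.h104.Q2.Defs

/-!
# MP_5bfbcb_an, Q2 (project of helper104): the piece LOGP
-/

set_option autoImplicit false

namespace Pool.Agent.Run7.h957.Q2

open MeasureTheory AddCircle Complex Set Filter Topology Pool.Agent.W767.HL
open Pool.Agent.Run7.h104.Q2

noncomputable section

theorem prove_LOGP : S_LOGP := by
  intro g p C hp hdist
  have hgi : Integrable (g : Ci → ℂ) mu := (Lp.memLp g).integrable (by norm_num)
  set A : ℝ := ∫ θ, ‖g θ‖ ∂mu with hA
  have hA0 : 0 ≤ A := integral_nonneg fun _ => norm_nonneg _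
  set p' : ℝ := min p 1 with hp'
  have hp'0 : 0 < p' := lt_min hp one_pos
  have hp'1 : p' ≤ 1 := min_le_right _ _
  have hp'p : p' ≤ p := min_le_left _ _
  set q : ℝ := p' / 2 with hq
  have hq0 : 0 < q := by positivity
  refine ⟨q, hq0, ?_⟩
  set f : Ci → ℝ := fun θ => Real.log ‖g θ‖ with hf
  have hgm : Measurable fun θ => ‖g θ‖ := (Lp.stronglyMeasurable g).measurable.norm
  have hfm : Measurable f := Real.measurable_log.comp hgm
  refine ⟨hfm.aestronglyMeasurable, ?_⟩
  have hqne : ENNReal.ofReal q ≠ 0 := by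
    rw [Ne, ENNReal.ofReal_eq_zero]
    linarith
  rw [eLpNorm_lt_top_iff_lintegral_rpow_enorm_lt_top hqne ENNReal.ofReal_ne_top,
    ENNReal.toReal_ofReal hq0.le]
  have e1 : ∫⁻ a, ‖f a‖ₑ ^ q ∂mu = ∫⁻ a, ENNReal.ofReal (|f a| ^ q) ∂mu := by
    refine lintegral_congr fun a => ?_
    rw [Real.enorm_eq_ofReal_abs, ENNReal.ofReal_rpow_of_nonneg (abs_nonneg _) hq0.le]
  rw [e1, lintegral_rpow_eq_lintegral_meas_lt_mul mu (Eventually.of_forall fun a => abs_nonneg _)
    hfm.abs.aemeasurable hq0]
  refine ENNReal.mul_lt_top ENNReal.ofReal_lt_top ?_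
  set T : ℝ := max C 1 with hT
  have hT1 : 1 ≤ T := le_max_right _ _
  have hT0 : 0 ≤ T := by linarith
  have hdisj : Disjoint (Ioc 0 T) (Ioi T) := by
    rw [Set.disjoint_left]
    intro x hx hx'
    exact absurd hx.2 (not_le.2 hx')
  rw [← Ioc_union_Ioi_eq_Ioi hT0, lintegral_union measurableSet_Ioi hdisj]
  refine ENNReal.add_lt_top.2 ⟨?_, ?_⟩
  · refine lt_of_le_of_lt (lintegral_mono (g := fun t : ℝ => ENNReal.ofReal (t ^ (q - 1)))
      fun t => ?_) ?_
    · exact mul_le_of_le_one_left zero_le prob_le_one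
    · have h1 : IntervalIntegrable (fun t : ℝ => t ^ (q - 1)) volume 0 T :=
        intervalIntegral.intervalIntegrable_rpow' (by linarith)
      rw [intervalIntegrable_iff_integrableOn_Ioc_of_le hT0] at h1
      exact h1.lintegral_lt_top
  · set M : ℝ := A + |C| with hM
    have hbound : ∀ t ∈ Ioi T, mu {θ | t < |f θ|} * ENNReal.ofReal (t ^ (q - 1)) ≤
        ENNReal.ofReal (M * t ^ (q - 1 - p')) := by
      intro t ht
      have htT : T < t := ht
      have ht1 : 1 ≤ t := by linarith
      have ht0 : 0 < t := by linarith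
      have htC : C ≤ t := (le_max_left _ _).trans htT.le
      have hsub : {θ | t < |f θ|} ⊆ {θ : Ci | t ≤ ‖g θ‖} ∪ {θ : Ci | ‖g θ‖ ≤ Real.exp (-t)} := by
        intro θ hθ
        replace hθ : t < |f θ| := hθ
        have hgn : 0 < ‖g θ‖ := by
          rcases (norm_nonneg (g θ)).eq_or_lt with h | h
          · exfalso
            simp only [hf] at hθ
            rw [← h, Real.log_zero, abs_zero] at hθ
            linarith
          · exact h
        rcases lt_abs.1 hθ with h | h
        · left
          have h2 := Real.log_le_sub_one_of_pos hgn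
          simp only [hf] at h
          show t ≤ ‖g θ‖
          linarith
        · right
          simp only [hf] at h
          show ‖g θ‖ ≤ Real.exp (-t)
          rw [← Real.exp_log hgn]
          exact Real.exp_le_exp.2 (by linarith)
      have hm1 : mu.real {θ : Ci | t ≤ ‖g θ‖} ≤ A * t ^ (-p') := by
        have h1 := mul_meas_ge_le_integral_of_nonneg (Eventually.of_forall fun θ : Ci =>
          norm_nonneg (g θ)) hgi.norm t
        have h2 : mu.real {θ : Ci | t ≤ ‖g θ‖} ≤ A * t ^ (-1 : ℝ) := by
          rw [Real.rpow_neg_one, ← div_eq_mul_inv, le_div_iff₀ ht0, mul_comm]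
          exact h1
        refine h2.trans (mul_le_mul_of_nonneg_left ?_ hA0)
        exact Real.rpow_le_rpow_of_exponent_le ht1 (by linarith)
      have hm2 : mu.real {θ : Ci | ‖g θ‖ ≤ Real.exp (-t)} ≤ |C| * t ^ (-p') := by
        refine (hdist t htC).trans ?_
        calc C * t ^ (-p) ≤ |C| * t ^ (-p) :=
              mul_le_mul_of_nonneg_right (le_abs_self C) (Real.rpow_nonneg ht0.le _)
          _ ≤ |C| * t ^ (-p') := mul_le_mul_of_nonneg_left
              (Real.rpow_le_rpow_of_exponent_le ht1 (by linarith)) (abs_nonneg C)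
      have hm : mu.real {θ | t < |f θ|} ≤ M * t ^ (-p') := by
        refine (measureReal_mono hsub).trans ((measureReal_union_le _ _).trans ?_)
        rw [hM, add_mul]
        exact add_le_add hm1 hm2
      have hM0 : 0 ≤ M := by positivity
      rw [← ofReal_measureReal (measure_ne_top _ _), ← ENNReal.ofReal_mul measureReal_nonneg]
      refine ENNReal.ofReal_le_ofReal ?_
      calc mu.real {θ | t < |f θ|} * t ^ (q - 1) ≤ M * t ^ (-p') * t ^ (q - 1) :=
            mul_le_mul_of_nonneg_right hm (Real.rpow_nonneg ht0.le _)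
        _ = M * t ^ (q - 1 - p') := by
            rw [mul_assoc, ← Real.rpow_add ht0]
            congr 2
            ring
    refine lt_of_le_of_lt (setLIntegral_mono' measurableSet_Ioi hbound) ?_
    have h1 : IntegrableOn (fun t : ℝ => M * t ^ (q - 1 - p')) (Ioi T) :=
      (integrableOn_Ioi_rpow_of_lt (by linarith) (by linarith)).const_mul M
    exact h1.lintegral_lt_top

end

end Pool.Agent.Run7.h957.Q2
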