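import Pool.Agent.Run7.h104.Q2.Defs

/-!
# MP_5bfbcb_an, Q2 (project of helper104): the piece UNIF
-/

set_option autoImplicit false

namespace Pool.Agent.Run7.h957.Q2

open MeasureTheory AddCircle Complex Set Filter Topology Pool.Agent.W767.HL
open Pool.Agent.Run7.h104.Q2

noncomputable section

theorem prove_UNIF (h1 : S_PART1) (h2 : S_PART2) : S_UNIF := by
  intro L η hL hη hη1
  obtain ⟨κ1, A0, c0, hκ1, hκ2, hA0, hc0, hc1, H1⟩ := h1 L η hL hη hη1
  obtain ⟨κ7, p, C, hκ7, hp, hC, H2⟩ := h2 κ1 A0 c0 hκ1 hκ2 hA0 hc0 hc1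
  obtain ⟨Dm, Cm, H3⟩ := H1 κ7 hκ7
  -- the exponential term
  have hlim := tendsto_rpow_mul_exp_neg_mul_atTop_nhds_zero p (1 / 64) (by norm_num)
  obtain ⟨X, hX⟩ := (hlim.eventually_le_const (zero_lt_one' ℝ)).exists_forall_of_atTop
  -- the threshold for `sqrt σ`
  set T : ℝ := max (max X Dm) (max C 1) with hT
  have hTX : X ≤ T := (le_max_left _ _).trans (le_max_left _ _)
  have hTD : Dm ≤ T := (le_max_right _ _).trans (le_max_left _ _)
  have hTC : C ≤ T := (le_max_left _ _).trans (le_max_right _ _)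
  have hT1 : 1 ≤ T := (le_max_right _ _).trans (le_max_right _ _)
  refine ⟨p / 2, max (C + 1) (T ^ 2), Cm, by positivity,
    (by linarith : 1 ≤ C + 1).trans (le_max_left _ _), ?_⟩
  intro m J G hG j2 hj1 hjJ hm σ hσ hexp
  have hσT : T ^ 2 ≤ σ := (le_max_right _ _).trans hσ
  have hσ1 : 1 ≤ σ := by nlinarith
  have hσ0 : 0 < σ := by linarith
  set D0 := Real.sqrt σ with hD0
  have hD0T : T ≤ D0 := by
    rw [hD0]
    exact Real.le_sqrt_of_sq_le hσT
  have hsq : D0 ^ 2 = σ := Real.sq_sqrt hσ0.le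
  have hD0pos : 0 < D0 := by linarith
  obtain ⟨N, hN, f, ell, hS⟩ := H3 D0 (by linarith) m J G hG j2 hj1 hjJ hm hexp ⌈C + σ⌉₊
  have hN' : C + σ ≤ N := (Nat.le_ceil _).trans (by exact_mod_cast hN)
  have hCD : C * D0 ≤ σ := by rw [← hsq]; nlinarith
  have h4 := H2 D0 σ (by linarith) hCD (by rw [hsq]) N G f ell hN' hS
  refine h4.trans ?_
  have e1 : (D0 / σ) ^ p = σ ^ (-(p / 2)) := by
    have : D0 / σ = σ ^ (-(1 / 2) : ℝ) := by
      rw [hD0, Real.sqrt_eq_rpow, Real.rpow_neg hσ0.le, div_eq_iff hσ0.ne', ← Real.rpow_neg hσ0.le]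
      nth_rewrite 3 [← Real.rpow_one σ]
      rw [← Real.rpow_add hσ0]
      norm_num
    rw [this, ← Real.rpow_mul hσ0.le]
    congr 1
    ring
  have e2 : Real.exp (-(D0 / 64)) ≤ σ ^ (-(p / 2)) := by
    have h5 := hX D0 (by linarith)
    have h6 : D0 ^ p = σ ^ (p / 2) := by
      rw [hD0, Real.sqrt_eq_rpow, ← Real.rpow_mul hσ0.le]
      congr 1
      ring
    rw [h6] at h5
    rw [Real.rpow_neg hσ0.le, ← one_div, le_div_iff₀ (Real.rpow_pos_of_pos hσ0 _)]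
    refine le_trans (le_of_eq ?_) h5
    rw [mul_comm]
    congr 2
    ring
  rw [e1]
  have h7 : 0 ≤ σ ^ (-(p / 2)) := Real.rpow_nonneg hσ0.le _
  calc C * σ ^ (-(p / 2)) + Real.exp (-(D0 / 64)) ≤ C * σ ^ (-(p / 2)) + σ ^ (-(p / 2)) := by linarith
    _ = (C + 1) * σ ^ (-(p / 2)) := by ring
    _ ≤ max (C + 1) (T ^ 2) * σ ^ (-(p / 2)) := mul_le_mul_of_nonneg_right (le_max_left _ _) h7

end

end Pool.Agent.Run7.h957.Q2
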